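import Pool.Agent.Y970.PX.Stm

/-!
# Project PX: basic facts on heights, Gelfond's inequality, bound for the resultant
-/

set_option autoImplicit false

namespace Pool.Agent.Y467.PX

open Finset Polynomial Pool.Agent.W89.VP Pool.Agent.Y970.PX

theorem ht_range (N : ℕ) (F : ℤ[X]) {M : ℕ} (hM : F.natDegree ≤ M) :
    ht N F = ∑ l ∈ range (M + 1), (F.coeff l).natAbs * N ^ l := by
  unfold ht
  apply Finset.sum_subset
  · intro l hl
    rw [Finset.mem_range] at hl ⊢
    omega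
  · intro l _ hl
    rw [Finset.mem_range] at hl
    rw [coeff_eq_zero_of_natDegree_lt (by omega), Int.natAbs_zero, zero_mul]

theorem ht_coeff (N : ℕ) (F : ℤ[X]) (l : ℕ) : (F.coeff l).natAbs * N ^ l ≤ ht N F := by
  by_cases hl : l ≤ F.natDegree
  · unfold ht
    exact Finset.single_le_sum (f := fun l => (F.coeff l).natAbs * N ^ l)
      (fun _ _ => Nat.zero_le _) (Finset.mem_range.mpr (by omega))
  · rw [coeff_eq_zero_of_natDegree_lt (by omega), Int.natAbs_zero, zero_mul]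
    exact Nat.zero_le _

theorem ht_eval (N : ℕ) (F : ℤ[X]) (z : ℤ) (hz : z.natAbs ≤ N) : (F.eval z).natAbs ≤ ht N F := by
  rw [eval_eq_sum_range]
  refine (Int.natAbs_sum_le _ _).trans ?_
  unfold ht
  apply Finset.sum_le_sum
  intro l _
  rw [Int.natAbs_mul, Int.natAbs_pow]
  gcongr

theorem ht_pos {N : ℕ} {F : ℤ[X]} (hN : 1 ≤ N) (hF : F ≠ 0) : 1 ≤ ht N F := by
  refine le_trans ?_ (ht_coeff N F F.natDegree)
  have h1 : 1 ≤ (F.coeff F.natDegree).natAbs := by
    rw [Nat.one_le_iff_ne_zero, Ne, Int.natAbs_eq_zero]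
    exact leadingCoeff_ne_zero.mpr hF
  have h2 : 1 ≤ N ^ F.natDegree := Nat.one_le_pow _ _ hN
  nlinarith

theorem ht_sub (N : ℕ) (F G : ℤ[X]) : ht N (F - G) ≤ ht N F + ht N G := by
  rw [ht_range N (F - G) (natDegree_sub_le F G), ht_range N F (le_max_left _ G.natDegree),
    ht_range N G (le_max_right F.natDegree _), ← Finset.sum_add_distrib]
  apply Finset.sum_le_sum
  intro l _
  rw [coeff_sub, ← add_mul]
  gcongr
  exact Int.natAbs_sub_le _ _

theorem ht_C_mul (N : ℕ) (a : ℤ) (F : ℤ[X]) : ht N (C a * F) ≤ a.natAbs * ht N F := by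
  rw [ht_range N (C a * F) (natDegree_C_mul_le a F)]
  unfold ht
  rw [Finset.mul_sum]
  apply Finset.sum_le_sum
  intro l _
  rw [coeff_C_mul, Int.natAbs_mul, mul_assoc]

theorem ht_X_mul (N : ℕ) (F : ℤ[X]) : ht N (X * F) ≤ N * ht N F := by
  have h1 : (X * F).natDegree ≤ F.natDegree + 1 := by
    refine natDegree_mul_le.trans ?_
    have := natDegree_X_le (R := ℤ)
    omega
  rw [ht_range N (X * F) h1, Finset.sum_range_succ']
  unfold ht
  rw [Finset.mul_sum]
  simp only [coeff_X_mul, mul_coeff_zero, coeff_X_zero, zero_mul, Int.natAbs_zero, add_zero]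
  apply Finset.sum_le_sum
  intro l _
  rw [pow_succ]
  apply le_of_eq
  ring

theorem ht_prod {s N : ℕ} (x : Fin s → ℕ) (hx : ∀ i, x i ≤ N) (A : Finset (Fin s)) :
    ht N (∏ i ∈ A, ((X : ℤ[X]) - C (x i : ℤ))) ≤ (2 * N) ^ A.card := by
  classical
  induction A using Finset.induction_on with
  | empty => simp [ht]
  | insert a A ha ih =>
    rw [Finset.prod_insert ha, Finset.card_insert_of_notMem ha, sub_mul]
    refine (ht_sub _ _ _).trans ?_
    have h1 := ht_X_mul N (∏ i ∈ A, ((X : ℤ[X]) - C (x i : ℤ)))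
    have h2 := ht_C_mul N (x a : ℤ) (∏ i ∈ A, ((X : ℤ[X]) - C (x i : ℤ)))
    rw [Int.natAbs_natCast] at h2
    have h3 : x a * ht N (∏ i ∈ A, ((X : ℤ[X]) - C (x i : ℤ))) ≤
        N * ht N (∏ i ∈ A, ((X : ℤ[X]) - C (x i : ℤ))) := Nat.mul_le_mul_right _ (hx a)
    calc _ ≤ N * ht N (∏ i ∈ A, ((X : ℤ[X]) - C (x i : ℤ))) +
          N * ht N (∏ i ∈ A, ((X : ℤ[X]) - C (x i : ℤ))) := by omega
      _ = 2 * N * ht N (∏ i ∈ A, ((X : ℤ[X]) - C (x i : ℤ))) := by ring
      _ ≤ 2 * N * (2 * N) ^ A.card := Nat.mul_le_mul_left _ ih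
      _ = (2 * N) ^ (A.card + 1) := by ring

theorem htb : HTBStm := by
  refine ⟨fun N F z hz => ht_eval N F z hz, fun N F hN hF => ht_pos hN hF,
    fun N F l => ht_coeff N F l, ?_⟩
  intro s N x y hx hy
  unfold Dp Pr
  refine (ht_sub _ _ _).trans ?_
  have h1 := ht_prod x hx Finset.univ
  have h2 := ht_prod y hy Finset.univ
  rw [Finset.card_univ, Fintype.card_fin] at h1 h2
  calc _ ≤ (2 * N) ^ s + (2 * N) ^ s := Nat.add_le_add h1 h2
    _ = 2 ^ (s + 1) * N ^ s := by rw [mul_pow]; ring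

/-! ### Gelfond's inequality -/

/-- the scaled polynomial -/
noncomputable def sc (N : ℕ) (F : ℤ[X]) : ℂ[X] :=
  (F.map (Int.castRingHom ℂ)).comp (C (N : ℂ) * X)

theorem sc_coeff (N : ℕ) (F : ℤ[X]) (l : ℕ) : (sc N F).coeff l = (F.coeff l : ℂ) * (N : ℂ) ^ l := by
  unfold sc
  rw [comp_C_mul_X_coeff, coeff_map]
  rfl

theorem sc_norm (N : ℕ) (F : ℤ[X]) (l : ℕ) :
    ‖(sc N F).coeff l‖ = (((F.coeff l).natAbs * N ^ l : ℕ) : ℝ) := by
  rw [sc_coeff, norm_mul, norm_pow, Complex.norm_natCast, Complex.norm_intCast]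
  push_cast
  rw [Nat.cast_natAbs, Int.cast_abs]

theorem sc_mul (N : ℕ) (F G : ℤ[X]) : sc N (F * G) = sc N F * sc N G := by
  unfold sc
  rw [Polynomial.map_mul, mul_comp]

theorem sc_natDegree (N : ℕ) (F : ℤ[X]) : (sc N F).natDegree ≤ F.natDegree := by
  rw [natDegree_le_iff_coeff_eq_zero]
  intro l hl
  rw [sc_coeff, coeff_eq_zero_of_natDegree_lt hl, Int.cast_zero, zero_mul]

theorem mahler_le (N : ℕ) (F : ℤ[X]) : (sc N F).mahlerMeasure ≤ (ht N F : ℝ) := by
  refine (mahlerMeasure_le_sum_norm_coeff _).trans ?_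
  rw [sum_over_range' _ (by simp) (F.natDegree + 1) (Nat.lt_succ_of_le (sc_natDegree N F))]
  unfold ht
  rw [Nat.cast_sum]
  apply le_of_eq
  apply Finset.sum_congr rfl
  intro l _
  exact sc_norm N F l

theorem ht_le_mahler (N r : ℕ) (F : ℤ[X]) (hr : F.natDegree ≤ r) :
    (ht N F : ℝ) ≤ ((r : ℝ) + 1) * 2 ^ r * (sc N F).mahlerMeasure := by
  unfold ht
  rw [Nat.cast_sum]
  have hM : 0 ≤ (sc N F).mahlerMeasure := mahlerMeasure_nonneg _
  have h1 : ∀ l ∈ range (F.natDegree + 1), (((F.coeff l).natAbs * N ^ l : ℕ) : ℝ) ≤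
      2 ^ r * (sc N F).mahlerMeasure := by
    intro l _
    rw [← sc_norm]
    refine (norm_coeff_le_choose_mul_mahlerMeasure l _).trans ?_
    gcongr
    have h2 : (sc N F).natDegree.choose l ≤ 2 ^ r :=
      (Nat.choose_le_two_pow _ _).trans (Nat.pow_le_pow_right (by norm_num)
        ((sc_natDegree N F).trans hr))
    exact_mod_cast h2
  refine (Finset.sum_le_sum h1).trans ?_
  rw [Finset.sum_const, Finset.card_range, nsmul_eq_mul, mul_assoc]
  gcongr
  exact_mod_cast Nat.succ_le_succ hr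

theorem gelf : GELFStm := by
  intro r
  refine ⟨((r + 1) * 2 ^ r) ^ 2, ?_⟩
  intro N _ H E hH hE hr
  rw [natDegree_mul hH hE] at hr
  have h1 := ht_le_mahler N r H (by omega)
  have h2 := ht_le_mahler N r E (by omega)
  have h3 := mahler_le N (H * E)
  rw [sc_mul, mahlerMeasure_mul] at h3
  have h4 : 0 ≤ (sc N H).mahlerMeasure := mahlerMeasure_nonneg _
  have h5 : 0 ≤ (sc N E).mahlerMeasure := mahlerMeasure_nonneg _
  have h6 : ((ht N H : ℝ)) * (ht N E : ℝ) ≤
      (((r : ℝ) + 1) * 2 ^ r) ^ 2 * (ht N (H * E) : ℝ) := by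
    calc ((ht N H : ℝ)) * (ht N E : ℝ) ≤ (((r : ℝ) + 1) * 2 ^ r * (sc N H).mahlerMeasure) *
          (((r : ℝ) + 1) * 2 ^ r * (sc N E).mahlerMeasure) := by
          apply mul_le_mul h1 h2 (Nat.cast_nonneg _) (by positivity)
      _ = (((r : ℝ) + 1) * 2 ^ r) ^ 2 * ((sc N H).mahlerMeasure * (sc N E).mahlerMeasure) := by ring
      _ ≤ _ := by gcongr
  exact_mod_cast h6

/-! ### the resultant -/

theorem det : DETStm := by
  intro E E1 N hN
  set m := E.natDegree with hm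
  set n := E1.natDegree with hn
  set S := sylvester E E1 m n with hS
  let b : Fin (m + n) → ℕ := fun j => j.addCases (fun j₁ => (j₁ : ℕ)) (fun j₁ => (j₁ : ℕ))
  let h : Fin (m + n) → ℕ := fun j => j.addCases (fun _ => ht N E1) (fun _ => ht N E)
  have hent : ∀ i j, (S i j).natAbs * N ^ (i : ℕ) ≤ h j * N ^ b j := by
    intro i j
    rw [hS]
    unfold sylvester
    rw [Matrix.of_apply]
    induction j using Fin.addCases with
    | left j₁ =>
      simp only [b, h, Fin.addCases_left]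
      split_ifs with hi
      · have h1 := ht_coeff N E1 ((i : ℕ) - j₁)
        have h2 : (i : ℕ) = ((i : ℕ) - j₁) + j₁ := by
          have := hi.1
          omega
        calc (E1.coeff ((i : ℕ) - j₁)).natAbs * N ^ (i : ℕ)
            = (E1.coeff ((i : ℕ) - j₁)).natAbs * N ^ ((i : ℕ) - j₁) * N ^ (j₁ : ℕ) := by
              rw [mul_assoc, ← pow_add, ← h2]
          _ ≤ ht N E1 * N ^ (j₁ : ℕ) := Nat.mul_le_mul_right _ h1
      · simp
    | right j₁ =>
      simp only [b, h, Fin.addCases_right]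
      split_ifs with hi
      · have h1 := ht_coeff N E ((i : ℕ) - j₁)
        have h2 : (i : ℕ) = ((i : ℕ) - j₁) + j₁ := by
          have := hi.1
          omega
        calc (E.coeff ((i : ℕ) - j₁)).natAbs * N ^ (i : ℕ)
            = (E.coeff ((i : ℕ) - j₁)).natAbs * N ^ ((i : ℕ) - j₁) * N ^ (j₁ : ℕ) := by
              rw [mul_assoc, ← pow_add, ← h2]
          _ ≤ ht N E * N ^ (j₁ : ℕ) := Nat.mul_le_mul_right _ h1
      · simp
  have hprod_h : ∏ j, h j = ht N E1 ^ m * ht N E ^ n := by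
    rw [Fin.prod_univ_add]
    simp only [h, Fin.addCases_left, Fin.addCases_right, Finset.prod_const, Finset.card_univ,
      Fintype.card_fin]
  have hsum : ∑ i : Fin (m + n), (i : ℕ) = ∑ j, b j + m * n := by
    rw [Fin.sum_univ_add, Fin.sum_univ_add]
    simp only [b, Fin.addCases_left, Fin.addCases_right, Fin.val_castAdd, Fin.val_natAdd,
      Finset.sum_add_distrib, Finset.sum_const, Finset.card_univ, Fintype.card_fin, smul_eq_mul]
    ring
  have hσ : ∀ σ : Equiv.Perm (Fin (m + n)),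
      (∏ j, (S (σ j) j).natAbs) * N ^ (m * n) ≤ ht N E1 ^ m * ht N E ^ n := by
    intro σ
    have h1 : ∏ j, ((S (σ j) j).natAbs * N ^ ((σ j : Fin (m + n)) : ℕ)) ≤ ∏ j, (h j * N ^ b j) :=
      Finset.prod_le_prod' (fun j _ => hent (σ j) j)
    rw [Finset.prod_mul_distrib, Finset.prod_mul_distrib, Finset.prod_pow_eq_pow_sum,
      Finset.prod_pow_eq_pow_sum, hprod_h,
      Equiv.sum_comp σ (fun i : Fin (m + n) => (i : ℕ)), hsum, pow_add] at h1
    have h2 : 0 < N ^ ∑ j, b j := Nat.pow_pos hN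
    have h3 : (∏ j, (S (σ j) j).natAbs) * N ^ (m * n) * N ^ ∑ j, b j ≤
        ht N E1 ^ m * ht N E ^ n * N ^ ∑ j, b j := by
      calc _ = (∏ j, (S (σ j) j).natAbs) * (N ^ (∑ j, b j) * N ^ (m * n)) := by ring
        _ ≤ _ := h1
    exact Nat.le_of_mul_le_mul_right h3 h2
  have hdet : (resultant E E1 m n).natAbs ≤
      ∑ σ : Equiv.Perm (Fin (m + n)), ∏ j, (S (σ j) j).natAbs := by
    unfold resultant
    rw [Matrix.det_apply]
    refine (Int.natAbs_sum_le _ _).trans (Finset.sum_le_sum ?_)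
    intro σ _
    apply le_of_eq
    rw [Units.smul_def, smul_eq_mul, Int.natAbs_mul, Int.natAbs_of_isUnit (Units.isUnit _),
      one_mul]
    exact map_prod Int.natAbsHom _ _
  calc (resultant E E1 m n).natAbs * N ^ (m * n)
      ≤ (∑ σ : Equiv.Perm (Fin (m + n)), ∏ j, (S (σ j) j).natAbs) * N ^ (m * n) :=
        Nat.mul_le_mul_right _ hdet
    _ = ∑ σ : Equiv.Perm (Fin (m + n)), (∏ j, (S (σ j) j).natAbs) * N ^ (m * n) := by
        rw [Finset.sum_mul]
    _ ≤ ∑ _σ : Equiv.Perm (Fin (m + n)), ht N E1 ^ m * ht N E ^ n :=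
        Finset.sum_le_sum (fun σ _ => hσ σ)
    _ = (m + n).factorial * ht N E ^ n * ht N E1 ^ m := by
        rw [Finset.sum_const, Finset.card_univ, Fintype.card_perm, Fintype.card_fin, smul_eq_mul]
        ring

end Pool.Agent.Y467.PX
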