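import Pool.Agent.Y970.PX.Stm
import Pool.Agent.W346.PV.Newt

/-!
# Project PX: two solutions in a fibre share a large divisor
-/

set_option autoImplicit false

namespace Pool.Agent.Y467.PX.T2

open Finset Polynomial Pool.Agent.W89.VP Pool.Agent.Y970.PX

theorem eval_prod_sub {s : ℕ} (x : Fin s → ℕ) (A : Finset (Fin s)) (z : ℤ) :
    (∏ i ∈ A, ((X : ℤ[X]) - C (x i : ℤ))).eval z = ∏ i ∈ A, (z - (x i : ℤ)) := by
  rw [eval_prod]
  simp only [eval_sub, eval_X, eval_C]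

theorem dp_deg {s k N : ℕ} {x y : Fin s → ℕ} (h : (x, y) ∈ VD s k N) :
    (Dp x y).degree < ((s - k : ℕ) : WithBot ℕ) := by
  have h1 := (Finset.mem_filter.mp (Finset.mem_filter.mp h).1).2
  exact Pool.Agent.W346.PV.Newt.main s k x y h1

theorem vd_ne {s k N : ℕ} {x y : Fin s → ℕ} (h : (x, y) ∈ VD s k N) (i j : Fin s) :
    x i ≠ y j := (Finset.mem_filter.mp h).2 i j

theorem vd_le {s k N : ℕ} {x y : Fin s → ℕ} (h : (x, y) ∈ VD s k N) (i : Fin s) :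
    x i ≤ N ∧ y i ≤ N := by
  have h1 := (Finset.mem_filter.mp (Finset.mem_filter.mp h).1).1
  rw [Finset.mem_product] at h1
  have h2 := Fintype.mem_piFinset.mp h1.1 i
  have h3 := Fintype.mem_piFinset.mp h1.2 i
  exact ⟨(Finset.mem_Icc.mp h2).2, (Finset.mem_Icc.mp h3).2⟩

/-- the value of `Dp` at `x i` is nonzero -/
theorem dp_eval_ne {s k N : ℕ} {x y : Fin s → ℕ} (h : (x, y) ∈ VD s k N) (i : Fin s) :
    (Dp x y).eval (x i : ℤ) ≠ 0 := by
  unfold Dp Pr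
  rw [eval_sub, eval_prod_sub, eval_prod_sub]
  have h1 : ∏ l : Fin s, ((x i : ℤ) - (x l : ℤ)) = 0 :=
    Finset.prod_eq_zero (Finset.mem_univ i) (sub_self _)
  rw [h1, zero_sub, neg_ne_zero, Finset.prod_ne_zero_iff]
  intro j _ h2
  exact vd_ne h i j (by exact_mod_cast sub_eq_zero.mp h2)

theorem dp_ne {s k N : ℕ} {x y : Fin s → ℕ} (h : (x, y) ∈ VD s k N) (i : Fin s) : Dp x y ≠ 0 := by
  intro h0
  apply dp_eval_ne h i
  rw [h0, eval_zero]

theorem main (hQ : QUOTStm) (hC : CHAINStm) (hR : RESStm) (hD : DETStm) (hG : GELFStm)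
    (hH : HTBStm) (hN : NUMStm) : T2Stm := by
  classical
  obtain ⟨s0, hs0⟩ := hN
  refine ⟨max s0 1, ?_⟩
  intro s k hs hks hsk
  set r := s - k with hr
  have hs1 : 1 ≤ s := (le_max_right _ _).trans hs
  have hs0' : s0 ≤ s := (le_max_left _ _).trans hs
  have hr1 : 1 ≤ r := by omega
  have hr10 : 10 * r ≤ s := by omega
  obtain ⟨C₀, hC₀⟩ := hG r
  obtain ⟨hh1, hh2, hh3, hh4⟩ := hH
  -- the constants
  set K : ℕ := max (C₀ * 2 ^ (s + 1)) 1 with hK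
  have hK1 : 1 ≤ K := le_max_right _ _
  refine ⟨max 2 ((2 * r).factorial * K ^ (2 * r)), ?_⟩
  intro N hN x y x1 y1 hxy hxy1 A B hA hB hxA hyB hbig
  have hN2 : 2 ≤ N := (le_max_left _ _).trans hN
  have hNK : (2 * r).factorial * K ^ (2 * r) ≤ N := (le_max_right _ _).trans hN
  have hN1 : 1 ≤ N := by omega
  have i0 : Fin s := ⟨0, hs1⟩
  have hD0 := dp_ne hxy i0
  have hD10 := dp_ne hxy1 i0
  obtain ⟨E, E1, H, hrel, hE, hE1⟩ :=
    UniqueFactorizationMonoid.exists_reduced_factors (Dp x y) hD0 (Dp x1 y1)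
  have hH0 : H ≠ 0 := by rintro rfl; apply hD0; rw [← hE, zero_mul]
  have hE0 : E ≠ 0 := by rintro rfl; apply hD0; rw [← hE, mul_zero]
  have hE10 : E1 ≠ 0 := by rintro rfl; apply hD10; rw [← hE1, mul_zero]
  refine ⟨H, E, E1, hE.symm, hE1.symm, ?_⟩
  -- degrees
  have hdegD : (Dp x y).natDegree ≤ r := by
    have := natDegree_lt_iff_degree_lt hD0 |>.mpr (dp_deg hxy)
    omega
  have hdegD1 : (Dp x1 y1).natDegree ≤ r := by
    have := natDegree_lt_iff_degree_lt hD10 |>.mpr (dp_deg hxy1)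
    omega
  have hdE : E.natDegree ≤ r := by
    rw [← hE, natDegree_mul hH0 hE0] at hdegD; omega
  have hdE1 : E1.natDegree ≤ r := by
    rw [← hE1, natDegree_mul hH0 hE10] at hdegD1; omega
  -- heights
  have hhD : ht N (Dp x y) ≤ 2 ^ (s + 1) * N ^ s :=
    hh4 s N x y (fun i => (vd_le hxy i).1) (fun i => (vd_le hxy i).2)
  have hhD1 : ht N (Dp x1 y1) ≤ 2 ^ (s + 1) * N ^ s :=
    hh4 s N x1 y1 (fun i => (vd_le hxy1 i).1) (fun i => (vd_le hxy1 i).2)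
  have hKN : ∀ t : ℕ, t ≤ 2 ^ (s + 1) * N ^ s → C₀ * t ≤ K * N ^ s := by
    intro t ht
    calc C₀ * t ≤ C₀ * (2 ^ (s + 1) * N ^ s) := Nat.mul_le_mul_left _ ht
      _ = C₀ * 2 ^ (s + 1) * N ^ s := by ring
      _ ≤ K * N ^ s := Nat.mul_le_mul_right _ (le_max_left _ _)
  have hgE : ht N H * ht N E ≤ K * N ^ s := by
    refine (hC₀ N hN1 H E hH0 hE0 (by rw [hE]; exact hdegD)).trans ?_
    rw [hE]; exact hKN _ hhD
  have hgE1 : ht N H * ht N E1 ≤ K * N ^ s := by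
    refine (hC₀ N hN1 H E1 hH0 hE10 (by rw [hE1]; exact hdegD1)).trans ?_
    rw [hE1]; exact hKN _ hhD1
  have hhH : 1 ≤ ht N H := hh2 N H hN1 hH0
  -- the ideals
  set P : ℤ[X] := ∏ i ∈ A, ((X : ℤ[X]) - C (x i : ℤ)) with hP
  set Q : ℤ[X] := ∏ j ∈ B, ((X : ℤ[X]) - C (y j : ℤ)) with hQd
  have hPx : P ∣ Pr x := Finset.prod_dvd_prod_of_subset _ _ _ (Finset.subset_univ A)
  have hQy : Q ∣ Pr y := Finset.prod_dvd_prod_of_subset _ _ _ (Finset.subset_univ B)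
  have hPx1 : P ∣ Pr x1 := by
    have h1 : P = ∏ i ∈ A, ((X : ℤ[X]) - C (x1 i : ℤ)) :=
      Finset.prod_congr rfl (fun i hi => by rw [hxA i hi])
    rw [h1]
    exact Finset.prod_dvd_prod_of_subset _ _ _ (Finset.subset_univ A)
  have hQy1 : Q ∣ Pr y1 := by
    have h1 : Q = ∏ j ∈ B, ((X : ℤ[X]) - C (y1 j : ℤ)) :=
      Finset.prod_congr rfl (fun j hj => by rw [hyB j hj])
    rw [h1]
    exact Finset.prod_dvd_prod_of_subset _ _ _ (Finset.subset_univ B)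
  have hPI : ∀ F : ℤ[X], P ∣ F → F ∈ Ideal.span ({P, Q} : Set ℤ[X]) := fun F hF =>
    (Ideal.span _).mem_of_dvd hF (Ideal.subset_span (by simp))
  have hQI : ∀ F : ℤ[X], Q ∣ F → F ∈ Ideal.span ({P, Q} : Set ℤ[X]) := fun F hF =>
    (Ideal.span _).mem_of_dvd hF (Ideal.subset_span (by simp))
  have hDI : H * E ∈ Ideal.span ({P, Q} : Set ℤ[X]) := by
    rw [hE]; exact (Ideal.span _).sub_mem (hPI _ hPx) (hQI _ hQy)
  have hD1I : H * E1 ∈ Ideal.span ({P, Q} : Set ℤ[X]) := by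
    rw [hE1]; exact (Ideal.span _).sub_mem (hPI _ hPx1) (hQI _ hQy1)
  have hPm : P.Monic := monic_prod_of_monic _ _ (fun i _ => monic_X_sub_C _)
  -- the sizes
  have hq1 := hQ s A (fun i => (x i : ℤ)) Q (by
    intro i _
    rw [hQd, eval_prod_sub, Finset.prod_ne_zero_iff]
    intro j _ h2
    exact vd_ne hxy i j (by exact_mod_cast sub_eq_zero.mp h2))
  have hHx : ∀ i, H.eval (x i : ℤ) ≠ 0 := by
    intro i h0
    apply dp_eval_ne hxy i
    rw [← hE, eval_mul, h0, zero_mul]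
  have hq2 := hQ s A (fun i => (x i : ℤ)) H (fun i _ => hHx i)
  have hfin1 : Finite (ℤ[X] ⧸ Ideal.span ({P, H} : Set ℤ[X])) := by
    apply Nat.finite_of_card_ne_zero
    rw [hq2, Finset.prod_ne_zero_iff]
    intro i _ h0
    exact hHx i (Int.natAbs_eq_zero.mp h0)
  obtain ⟨hfin2, hres⟩ := hR P E E1 hPm hrel hE0 hE10
  have hchain := hC P Q H E E1 hDI hD1I hfin1 hfin2
  rw [hq1, hq2] at hchain
  have hM : ∏ i ∈ A, (Q.eval (x i : ℤ)).natAbs = ∏ i ∈ A, ∏ j ∈ B, ds (x i) (y j) := by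
    apply Finset.prod_congr rfl
    intro i _
    rw [hQd, eval_prod_sub]
    exact map_prod Int.natAbsHom _ _
  rw [hM] at hchain
  have hPH : ∏ i ∈ A, (H.eval (x i : ℤ)).natAbs ≤ ht N H ^ A.card := by
    rw [← Finset.prod_const]
    apply Finset.prod_le_prod'
    intro i _
    apply hh1
    rw [Int.natAbs_natCast]
    exact (vd_le hxy i).1
  -- combination in natural numbers
  set R : ℕ := (resultant E E1 E.natDegree E1.natDegree).natAbs with hRd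
  have hdet := hD E E1 N hN1
  rw [← hRd] at hdet
  have hMR : ∏ i ∈ A, ∏ j ∈ B, ds (x i) (y j) ≤ ht N H ^ A.card * R :=
    hchain.trans (Nat.mul_le_mul hPH hres)
  -- real exponents
  have hNpos : (0 : ℝ) < N := by exact_mod_cast hN1
  have hNgt : (1 : ℝ) < N := by exact_mod_cast hN2
  have hlog : 0 < Real.log N := Real.log_pos hNgt
  set η : ℝ := Real.log (ht N H) / Real.log N with hη
  have hη0 : 0 ≤ η := div_nonneg (Real.log_nonneg (by exact_mod_cast hhH)) hlog.le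
  have hhHpos : (0 : ℝ) < (ht N H : ℝ) := by exact_mod_cast hhH
  have hNη : (N : ℝ) ^ η = (ht N H : ℝ) := by
    rw [Real.rpow_def_of_pos hNpos, hη, mul_div_cancel₀ _ hlog.ne', Real.exp_log hhHpos]
  have hEη : ∀ F : ℤ[X], ht N H * ht N F ≤ K * N ^ s → (ht N F : ℝ) ≤ K * (N : ℝ) ^ ((s : ℝ) - η) := by
    intro F hF
    have h1 : (ht N H : ℝ) * (ht N F : ℝ) ≤ K * (N : ℝ) ^ s := by exact_mod_cast hF
    rw [Real.rpow_sub hNpos, Real.rpow_natCast, hNη, ← mul_div_assoc, le_div_iff₀ hhHpos]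
    linarith
  have hη1 := hEη E hgE
  have hη2 := hEη E1 hgE1
  set e := E.natDegree with he
  set e1 := E1.natDegree with he1
  set V : ℝ := (N : ℝ) ^ ((s : ℝ) - η) with hV
  have hVpos : 0 < V := Real.rpow_pos_of_pos hNpos _
  have hKpos : (0 : ℝ) < K := by exact_mod_cast hK1
  have hKge : (1 : ℝ) ≤ K := by exact_mod_cast hK1
  -- the bound for the resultant
  have hRb : (R : ℝ) * (N : ℝ) ^ (e * e1) ≤ ((e + e1).factorial : ℝ) * (K * V) ^ e1 * (K * V) ^ e := by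
    have h1 : (R : ℝ) * (N : ℝ) ^ (e * e1) ≤
        ((e + e1).factorial : ℝ) * (ht N E : ℝ) ^ e1 * (ht N E1 : ℝ) ^ e := by exact_mod_cast hdet
    refine h1.trans ?_
    gcongr
  have hconst : ((e + e1).factorial : ℝ) * (K : ℝ) ^ (e1 + e) ≤ N := by
    have h1 : (e + e1).factorial ≤ (2 * r).factorial := Nat.factorial_le (by omega)
    have h2 : K ^ (e1 + e) ≤ K ^ (2 * r) := Nat.pow_le_pow_right hK1 (by omega)
    exact_mod_cast (Nat.mul_le_mul h1 h2).trans hNK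
  have hRb2 : (R : ℝ) * (N : ℝ) ^ (e * e1) ≤ N * V ^ (e + e1) := by
    refine hRb.trans ?_
    calc ((e + e1).factorial : ℝ) * (K * V) ^ e1 * (K * V) ^ e
        = (((e + e1).factorial : ℝ) * (K : ℝ) ^ (e1 + e)) * V ^ (e + e1) := by
          rw [mul_pow, mul_pow, pow_add, pow_add]; ring
      _ ≤ N * V ^ (e + e1) := by gcongr
  have hRb3 : (R : ℝ) ≤ (N : ℝ) ^ (((e : ℝ) + e1) * (s - η) - (e : ℝ) * e1 + 1) := by
    have h1 : (N : ℝ) ^ (((e : ℝ) + e1) * (s - η) - (e : ℝ) * e1 + 1) =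
        N * V ^ (e + e1) / (N : ℝ) ^ (e * e1) := by
      rw [Real.rpow_add hNpos, Real.rpow_sub hNpos, Real.rpow_one, hV, ← Real.rpow_natCast,
        ← Real.rpow_natCast, ← Real.rpow_mul hNpos.le]
      push_cast
      rw [mul_comm ((e : ℝ) + e1) ((s : ℝ) - η)]
      ring
    rw [h1, le_div_iff₀ (by positivity)]
    exact hRb2
  have hfinal : (N : ℝ) ^ (((42 * s / 100 : ℕ) : ℝ) * ((577 * s / 1000 : ℕ) : ℝ) *
      (1 - (r : ℝ) / s - 1 / 250)) ≤
      (N : ℝ) ^ (((42 * s / 100 : ℕ) : ℝ) * η + ((e : ℝ) + e1) * (s - η) - (e : ℝ) * e1 + 1) := by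
    refine hbig.trans ?_
    have h1 : ((∏ i ∈ A, ∏ j ∈ B, ds (x i) (y j) : ℕ) : ℝ) ≤ (ht N H : ℝ) ^ A.card * (R : ℝ) := by
      exact_mod_cast hMR
    refine h1.trans ?_
    have h2 : (ht N H : ℝ) ^ A.card = (N : ℝ) ^ (((42 * s / 100 : ℕ) : ℝ) * η) := by
      rw [← hNη, ← Real.rpow_natCast, ← Real.rpow_mul hNpos.le, hA, mul_comm]
    rw [h2]
    have h3 : ((42 * s / 100 : ℕ) : ℝ) * η + ((e : ℝ) + e1) * (s - η) - (e : ℝ) * e1 + 1 =
        ((42 * s / 100 : ℕ) : ℝ) * η + (((e : ℝ) + e1) * (s - η) - (e : ℝ) * e1 + 1) := by ring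
    rw [h3, Real.rpow_add hNpos]
    gcongr
  have hexp := (Real.rpow_le_rpow_left_iff hNgt).mp hfinal
  have hres2 := hs0 s r e e1 hs0' hr10 hdE hdE1 η hη0 hexp
  rw [← hNη]
  exact Real.rpow_le_rpow_of_exponent_le hNgt.le hres2

end Pool.Agent.Y467.PX.T2
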